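import Pool.Agent.Helper86.SJ.Defs

/-! Package CON of `Pool.Agent.Helper86.SJ.Defs`: the construction. -/

set_option autoImplicit false

open Finset

namespace Pool.Agent.Helper84.SJ

open _root_.SJ

variable {n : ℕ}

/-- the coordinates of the support where `v` differs from `c` -/
def dis (c v : Fin n → ℤ) : Finset (Fin n) := (supp v).filter (fun i => v i ≠ c i)

lemma mem_supp {v : Fin n → ℤ} {i : Fin n} : i ∈ supp v ↔ v i ≠ 0 := by simp [supp]

lemma mem_dis {c v : Fin n → ℤ} {i : Fin n} : i ∈ dis c v ↔ v i ≠ 0 ∧ v i ≠ c i := by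
  simp [dis, mem_supp]

lemma dot_ge (c u v : Fin n → ℤ) (hc : ∀ i, c i = 1 ∨ c i = -1)
    (hu : ∀ i, u i = -1 ∨ u i = 0 ∨ u i = 1) (hv : ∀ i, v i = -1 ∨ v i = 0 ∨ v i = 1) :
    -(#((dis c u ∩ supp v) ∪ (dis c v ∩ supp u)) : ℤ) ≤ dot u v := by
  have h0 : (-(#((dis c u ∩ supp v) ∪ (dis c v ∩ supp u)) : ℤ)) =
      ∑ i, if i ∈ (dis c u ∩ supp v) ∪ (dis c v ∩ supp u) then (-1 : ℤ) else 0 := by
    rw [Finset.sum_ite_mem]; simp
  rw [h0]
  unfold dot
  apply Finset.sum_le_sum
  intro i _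
  simp only [mem_union, mem_inter, mem_dis, mem_supp]
  rcases hc i with h | h <;> rcases hu i with h1 | h1 | h1 <;> rcases hv i with h2 | h2 | h2 <;>
    simp [h, h1, h2]

/-- the members of the family: `T`, `c`, `F₁` are fixed -/
structure Mem (k : ℕ) (T : Finset (Fin n)) (c : Fin n → ℤ) (F₁ : Finset (Fin n → ℤ))
    (v : Fin n → ℤ) : Prop where
  isV : IsV n k v
  dis_le : #(dis c v) ≤ 1
  min : ∀ y ∈ dis c v, ¬ Disjoint (supp v) T → y ∈ T ∧ ∀ z ∈ supp v, z ∈ T → y ≤ z
  mem : Disjoint (supp v) T → (dis c v).Nonempty → v ∈ F₁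

lemma indK_aux (k : ℕ) (T : Finset (Fin n)) (c : Fin n → ℤ) (hc : ∀ i, c i = 1 ∨ c i = -1)
    (F₁ : Finset (Fin n → ℤ)) (hF : IndJ n k F₁) (u v : Fin n → ℤ) (hu : Mem k T c F₁ u)
    (hv : Mem k T c F₁ v) (hne : u ≠ v) : ¬ dot u v ≤ -2 := by
  intro hd
  have h1 := dot_ge c u v hc hu.isV.1 hv.isV.1
  have h2 : #((dis c u ∩ supp v) ∪ (dis c v ∩ supp u)) ≤ 2 := by
    refine (card_union_le _ _).trans ?_
    have := hu.dis_le
    have := hv.dis_le
    have := card_le_card (inter_subset_left (s₁ := dis c u) (s₂ := supp v))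
    have := card_le_card (inter_subset_left (s₁ := dis c v) (s₂ := supp u))
    omega
  have h3 : 1 < #((dis c u ∩ supp v) ∪ (dis c v ∩ supp u)) := by omega
  have hdd : dot u v = -2 := by omega
  obtain ⟨a, ha, b, hb, hab⟩ := one_lt_card.mp h3
  have key : ∃ y z, y ≠ z ∧ y ∈ dis c u ∧ y ∈ supp v ∧ z ∈ dis c v ∧ z ∈ supp u := by
    have e1 := card_le_one.mp hu.dis_le
    have e2 := card_le_one.mp hv.dis_le
    rw [mem_union, mem_inter, mem_inter] at ha hb
    rcases ha with ha | ha <;> rcases hb with hb | hb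
    · exact absurd (e1 a ha.1 b hb.1) hab
    · exact ⟨a, b, hab, ha.1, ha.2, hb.1, hb.2⟩
    · exact ⟨b, a, fun h => hab h.symm, hb.1, hb.2, ha.1, ha.2⟩
    · exact absurd (e2 a ha.1 b hb.1) hab
  obtain ⟨y, z, hyz, hyu, hyv, hzv, hzu⟩ := key
  have hys : y ∈ supp u := mem_supp.mpr (mem_dis.mp hyu).1
  have hzs : z ∈ supp v := mem_supp.mpr (mem_dis.mp hzv).1
  by_cases hT : Disjoint (supp u) T
  · by_cases hT' : Disjoint (supp v) T
    · exact hF.2 u (hu.mem hT ⟨y, hyu⟩) v (hv.mem hT' ⟨z, hzv⟩) hne hdd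
    · have := (hv.min z hzv hT').1
      exact Finset.disjoint_left.mp hT hzu this
  · have hy := hu.min y hyu hT
    have hT' : ¬ Disjoint (supp v) T := fun h => Finset.disjoint_left.mp h hyv hy.1
    have hz := hv.min z hzv hT'
    exact hyz (le_antisymm (hy.2 z hzu hz.1) (hz.2 y hyv hy.1))

/-- the vector `c` on `S` -/
def cS (c : Fin n → ℤ) (S : Finset (Fin n)) : Fin n → ℤ := fun i => if i ∈ S then c i else 0

/-- the vector which differs from `c` on `S` exactly at the minimum of `S ∩ T` -/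
def dS (c : Fin n → ℤ) (T S : Finset (Fin n)) : Fin n → ℤ :=
  fun i => if i ∈ S then (if i ∈ T ∧ ∀ z ∈ S, z ∈ T → i ≤ z then - c i else c i) else 0

lemma supp_cS {c : Fin n → ℤ} (hc : ∀ i, c i = 1 ∨ c i = -1) (S : Finset (Fin n)) :
    supp (cS c S) = S := by
  ext i
  rw [mem_supp]
  unfold cS
  rcases hc i with h | h <;> simp [h]

lemma supp_dS {c : Fin n → ℤ} (hc : ∀ i, c i = 1 ∨ c i = -1) (T S : Finset (Fin n)) :
    supp (dS c T S) = S := by
  ext i
  rw [mem_supp]
  unfold dS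
  by_cases h2 : i ∈ S
  · rw [if_pos h2]
    split_ifs <;> rcases hc i with h | h <;> simp [h, h2]
  · rw [if_neg h2]
    simp [h2]

lemma dis_cS {c : Fin n → ℤ} (S : Finset (Fin n)) : dis c (cS c S) = ∅ := by
  ext i
  rw [mem_dis]
  unfold cS
  by_cases h : i ∈ S <;> simp [h]

lemma mem_dis_dS {c : Fin n → ℤ} (hc : ∀ i, c i = 1 ∨ c i = -1) (T S : Finset (Fin n))
    (i : Fin n) : i ∈ dis c (dS c T S) ↔ i ∈ S ∧ i ∈ T ∧ ∀ z ∈ S, z ∈ T → i ≤ z := by
  rw [mem_dis]
  unfold dS
  by_cases h2 : i ∈ S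
  · rw [if_pos h2]
    by_cases h1 : i ∈ T ∧ ∀ z ∈ S, z ∈ T → i ≤ z
    · rw [if_pos h1]
      refine ⟨fun _ => ⟨h2, h1⟩, fun _ => ?_⟩
      rcases hc i with h | h <;> simp [h]
    · rw [if_neg h1]
      exact ⟨fun h => absurd rfl h.2, fun h => absurd h.2 h1⟩
  · rw [if_neg h2]
    exact ⟨fun h => absurd rfl h.1, fun h => absurd h.1 h2⟩

theorem con : CONStm := by
  classical
  intro n k hk T c hc F₁ hF hF1
  have hF1' : ∀ v ∈ F₁, Disjoint (supp v) T ∧ #(dis c v) = 1 := by
    intro v hv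
    have := hF1 v hv
    exact ⟨this.1, by rw [← this.2]; unfold dis; congr⟩
  set A : Finset (Finset (Fin n)) := powersetCard k (univ : Finset (Fin n)) with hA
  set B := A.filter (fun S => ¬ Disjoint S T) with hB
  set B' := A.filter (fun S => Disjoint S T) with hB'
  have hAc : #B' + #B = #A := card_filter_add_card_filter_not (s := A) (fun S => Disjoint S T)
  have hex : ∀ S ∈ B, ∃ i, i ∈ S ∧ i ∈ T ∧ ∀ z ∈ S, z ∈ T → i ≤ z := by
    intro S hS
    have h1 : (S ∩ T).Nonempty := by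
      rw [hB, mem_filter] at hS
      by_contra h
      exact hS.2 (disjoint_iff_inter_eq_empty.mpr (not_nonempty_iff_eq_empty.mp h))
    refine ⟨(S ∩ T).min' h1, (mem_inter.mp (min'_mem _ h1)).1, (mem_inter.mp (min'_mem _ h1)).2,
      fun z hz hzT => min'_le _ _ (mem_inter.mpr ⟨hz, hzT⟩)⟩
  have hcI : Function.Injective (cS c) := fun S S' h => by
    rw [← supp_cS hc S, ← supp_cS hc S', h]
  have hdI : Function.Injective (dS c T) := fun S S' h => by
    rw [← supp_dS hc T S, ← supp_dS hc T S', h]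
  have hAm : ∀ S ∈ A, #S = k := fun S hS => (mem_powersetCard.mp hS).2
  have hM : ∀ v ∈ (A.image (cS c)) ∪ (B.image (dS c T)) ∪ F₁, Mem k T c F₁ v := by
    intro v hv
    rw [mem_union, mem_union, mem_image, mem_image] at hv
    rcases hv with (⟨S, hS, rfl⟩ | ⟨S, hS, rfl⟩) | hv
    · refine ⟨⟨fun i => ?_, ?_⟩, ?_, ?_, ?_⟩
      · unfold cS
        split_ifs
        · rcases hc i with h | h <;> simp [h]
        · simp
      · rw [supp_cS hc]; exact hAm S hS
      · rw [dis_cS]; simp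
      · rw [dis_cS]; simp
      · rw [dis_cS]; simp
    · have hSA : S ∈ A := (mem_filter.mp hS).1
      refine ⟨⟨fun i => ?_, ?_⟩, ?_, ?_, ?_⟩
      · unfold dS
        split_ifs <;> rcases hc i with h | h <;> simp [h]
      · rw [supp_dS hc]; exact hAm S hSA
      · rw [card_le_one]
        intro a ha b hb
        rw [mem_dis_dS hc] at ha hb
        exact le_antisymm (ha.2.2 b hb.1 hb.2.1) (hb.2.2 a ha.1 ha.2.1)
      · intro y hy _
        rw [mem_dis_dS hc] at hy
        rw [supp_dS hc]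
        exact hy.2
      · intro hd
        rw [supp_dS hc] at hd
        exact absurd hd (mem_filter.mp hS).2
    · have h1 := hF1' v hv
      exact ⟨hF.1 v hv, h1.2.le, fun y _ h => absurd h1.1 h, fun _ _ => hv⟩
  refine ⟨(A.image (cS c)) ∪ (B.image (dS c T)) ∪ F₁, ⟨fun v hv => (hM v hv).isV, ?_⟩, ?_⟩
  · intro u hu v hv hne
    exact indK_aux k T c hc F₁ hF u v (hM u hu) (hM v hv) hne
  · have hne : ∀ S ∈ B, (dis c (dS c T S)).Nonempty := by
      intro S hS
      obtain ⟨i, hi⟩ := hex S hS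
      exact ⟨i, (mem_dis_dS hc T S i).mpr hi⟩
    have d1 : Disjoint (A.image (cS c)) (B.image (dS c T)) := by
      rw [Finset.disjoint_left]
      intro v hv hv'
      rw [mem_image] at hv hv'
      obtain ⟨S, hS, rfl⟩ := hv
      obtain ⟨S', hS', h⟩ := hv'
      have := hne S' hS'
      rw [h, dis_cS] at this
      exact Finset.not_nonempty_empty this
    have d2 : Disjoint ((A.image (cS c)) ∪ (B.image (dS c T))) F₁ := by
      rw [Finset.disjoint_left]
      intro v hv hv'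
      have h1 := hF1' v hv'
      rw [mem_union, mem_image, mem_image] at hv
      rcases hv with ⟨S, hS, rfl⟩ | ⟨S, hS, rfl⟩
      · rw [dis_cS] at h1
        simp at h1
      · rw [supp_dS hc] at h1
        exact (mem_filter.mp hS).2 h1.1
    rw [card_union_of_disjoint d2, card_union_of_disjoint d1, card_image_of_injective _ hcI,
      card_image_of_injective _ hdI]
    have e1 : #B = #((powersetCard k (univ : Finset (Fin n))).filter
        (fun S => ¬ Disjoint S T)) := by rw [hB, hA]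
    have e2 : #B' = #((powersetCard k (univ : Finset (Fin n))).filter
        (fun S => Disjoint S T)) := by rw [hB', hA]
    have : 2 * #B + #B' + #F₁ ≤ #A + #B + #F₁ := by omega
    convert this using 3

end Pool.Agent.Helper84.SJ
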